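import Pool.Agent.X10.SSB.Core

set_option autoImplicit false

namespace Pool.Agent.X10.SSB

open Finset Pool.Agent.X184.SS

theorem t_STEP : S_STEP := by
  classical
  intro hU hH Z n C hC hTl hDm i hi hG
  refine core hU hH Z n C hC hTl hDm (Sch i) (Sch (i + 1)) (fun F hF =>
    sch_mono hU (i + 1) (n + 1) (by omega) F hF) ?_ hG
  rintro F ⟨k, G, hG1, hG2, rfl, hk⟩ z ε M hε _ hS ⟨a, ha, haM⟩
  rw [Finset.sum_biUnion]
  · have hkM : k ≤ M := by have := hk a ha; omega
    calc ∑ x : Fin k, ∑ j ∈ G x, |z j| ≤ ∑ x : Fin k, ε :=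
          Finset.sum_le_sum fun x _ => hS (G x) (hG1 x).2
      _ = k * ε := by simp
      _ ≤ M * ε := by
          have : (k : ℝ) ≤ M := by exact_mod_cast hkM
          gcongr
  · intro x _ y _ hxy
    rw [Function.onFun, Finset.disjoint_left]
    intro b hb hb'
    rcases lt_or_gt_of_ne hxy with h | h
    · exact absurd (hG2 x y h b hb b hb') (lt_irrefl _)
    · exact absurd (hG2 y x h b hb' b hb) (lt_irrefl _)

theorem exists_vanishing (Z : Submodule ℝ (ℕ → ℝ)) (hZ : ¬ FiniteDimensional ℝ Z) (N : ℕ) :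
    ∃ z ∈ Z, z ≠ 0 ∧ ∀ j < N, z j = 0 := by
  classical
  by_contra hcon
  push Not at hcon
  apply hZ
  let φ : Z →ₗ[ℝ] (Fin N → ℝ) :=
    { toFun := fun z i => (z : ℕ → ℝ) i
      map_add' := fun _ _ => rfl
      map_smul' := fun _ _ => rfl }
  have hφ : Function.Injective φ := by
    rw [← LinearMap.ker_eq_bot, LinearMap.ker_eq_bot']
    intro z hz
    by_contra hne
    have hne' : (z : ℕ → ℝ) ≠ 0 := fun h => hne (Subtype.ext h)
    obtain ⟨j, hj, hj0⟩ := hcon z z.2 hne'
    exact hj0 (congrFun hz ⟨j, hj⟩)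
  exact FiniteDimensional.of_injective φ hφ

theorem t_BASE : S_BASE := by
  classical
  intro hU hH Z n C hfd hC hTl hDm
  refine core hU hH Z n C hC hTl hDm ∅ (Sch 0) (fun F hF =>
    sch_mono hU 0 (n + 1) (by omega) F hF) ?_ ?_
  · intro F hF z ε M hε h0 _ ⟨a, ha, haM⟩
    have hF' : F = {a} := by
      have hc : F.card ≤ 1 := hF
      rw [Finset.card_le_one] at hc
      ext b
      rw [Finset.mem_singleton]
      exact ⟨fun hb => hc b hb a ha, fun hb => hb ▸ ha⟩
    rw [hF', Finset.sum_singleton, h0 a haM, abs_zero]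
    positivity
  · intro ε hε N
    obtain ⟨w, hwZ, hwne, hw0⟩ := exists_vanishing Z hfd N
    obtain ⟨a, ha⟩ : ∃ a, w a ≠ 0 := by
      by_contra hcon
      push Not at hcon
      exact hwne (funext hcon)
    obtain ⟨N0, hN0⟩ := hTl w hwZ 1 one_pos
    have hB : ∀ F ∈ Sch (n + 1), ∑ j ∈ F, |w j| ≤ (∑ j ∈ range N0, |w j|) + 1 := by
      intro F hF
      rw [← Finset.sum_filter_add_sum_filter_not F (fun b => b < N0)]
      refine add_le_add ?_ ?_
      · refine Finset.sum_le_sum_of_subset_of_nonneg ?_ (fun _ _ _ => abs_nonneg _)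
        intro b hb
        exact Finset.mem_range.mpr (Finset.mem_filter.mp hb).2
      · refine hN0 _ (hH (n + 1) F _ hF (Finset.filter_subset _ _)) ?_
        intro b hb
        exact not_lt.mp (Finset.mem_filter.mp hb).2
    have hs : ({a} : Finset ℕ) ∈ Sch (n + 1) :=
      sch_mono hU 0 (n + 1) (by omega) {a} (by
        show ({a} : Finset ℕ).card ≤ 1
        simp)
    obtain ⟨v, h1, h2, h3, h4, _⟩ := normalise Z n w hwZ N hw0 _ hB |w a| (abs_pos.mpr ha) {a} hs
      (by simp) ∅ 0 le_rfl (fun F hF => absurd hF (Set.notMem_empty F))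
    exact ⟨v, h1, h2, h3, h4, fun F hF => absurd hF (Set.notMem_empty F)⟩

end Pool.Agent.X10.SSB
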