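import Pool.Agent.X184.SS.Stm

set_option autoImplicit false

namespace Pool.Agent.X10.SSB

open Finset Pool.Agent.X184.SS

/-- the sequences of `Z` that are normalised of order `n+1`, small on the family `S` -/
def GoodG (Z : Submodule ℝ (ℕ → ℝ)) (n : ℕ) (S : Set (Finset ℕ)) : Prop :=
  ∀ ε : ℝ, 0 < ε → ∀ N : ℕ, ∃ z ∈ Z,
  (∀ j < N, z j = 0) ∧ (∀ F ∈ Sch (n + 1), ∑ j ∈ F, |z j| ≤ 1) ∧
  (∃ F ∈ Sch (n + 1), 1 / 2 ≤ ∑ j ∈ F, |z j|) ∧ ∀ F ∈ S, ∑ j ∈ F, |z j| ≤ ε

theorem sch_succ (hU : S_UNI) (n : ℕ) (F : Finset ℕ) (hF : F ∈ Sch n) : F ∈ Sch (n + 1) := by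
  have h := hU n 1 (fun _ => F) (fun _ => hF)
    (fun i j hij => absurd hij (by rw [Subsingleton.elim i j]; exact lt_irrefl _))
    (fun i a _ => by omega)
  have e : (univ : Finset (Fin 1)).biUnion (fun _ => F) = F := by
    ext a; simp
  rwa [e] at h

theorem sch_mono (hU : S_UNI) (i n : ℕ) (h : i ≤ n) (F : Finset ℕ) (hF : F ∈ Sch i) :
    F ∈ Sch n := by
  induction n, h using Nat.le_induction with
  | base => exact hF
  | succ n _ ih => exact sch_succ hU n F ih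

/-- normalisation of a sequence -/
theorem normalise (Z : Submodule ℝ (ℕ → ℝ)) (n : ℕ) (w : ℕ → ℝ) (hw : w ∈ Z) (N : ℕ)
    (h0 : ∀ j < N, w j = 0) (B : ℝ) (hB : ∀ F ∈ Sch (n + 1), ∑ j ∈ F, |w j| ≤ B)
    (L : ℝ) (hL : 0 < L) (U : Finset ℕ) (hU : U ∈ Sch (n + 1)) (hUL : L ≤ ∑ j ∈ U, |w j|)
    (T : Set (Finset ℕ)) (D : ℝ) (hD : 0 ≤ D) (hT : ∀ F ∈ T, ∑ j ∈ F, |w j| ≤ D) :
    ∃ z ∈ Z, (∀ j < N, z j = 0) ∧ (∀ F ∈ Sch (n + 1), ∑ j ∈ F, |z j| ≤ 1) ∧
      (∃ F ∈ Sch (n + 1), 1 / 2 ≤ ∑ j ∈ F, |z j|) ∧ ∀ F ∈ T, ∑ j ∈ F, |z j| ≤ D / L := by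
  classical
  set A : Set ℝ := (fun F : Finset ℕ => ∑ j ∈ F, |w j|) '' (Sch (n + 1)) with hA
  have hne : A.Nonempty := ⟨_, U, hU, rfl⟩
  have hbd : BddAbove A := ⟨B, by rintro _ ⟨F, hF, rfl⟩; exact hB F hF⟩
  set s := sSup A with hs
  have hsL : L ≤ s := le_trans hUL (le_csSup hbd ⟨U, hU, rfl⟩)
  have hs0 : 0 < s := lt_of_lt_of_le hL hsL
  obtain ⟨_, ⟨F0, hF0, rfl⟩, hlt⟩ := exists_lt_of_lt_csSup hne (show s / 2 < s by linarith)
  have key : ∀ F : Finset ℕ, ∑ j ∈ F, |((1 / s) • w) j| = (∑ j ∈ F, |w j|) / s := by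
    intro F
    rw [Finset.sum_div]
    refine Finset.sum_congr rfl fun j _ => ?_
    simp only [Pi.smul_apply, smul_eq_mul, abs_mul, abs_of_pos (one_div_pos.mpr hs0)]
    ring
  refine ⟨(1 / s) • w, Z.smul_mem _ hw, fun j hj => by simp [h0 j hj], ?_, ⟨F0, hF0, ?_⟩, ?_⟩
  · intro F hF
    rw [key, div_le_one hs0]
    exact le_csSup hbd ⟨F, hF, rfl⟩
  · rw [key, le_div_iff₀ hs0]
    simp only at hlt
    linarith
  · intro F hF
    rw [key]
    exact div_le_div₀ hD (hT F hF) hL hsL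

theorem core (hU : S_UNI) (hH : ∀ (n : ℕ) (F G : Finset ℕ), F ∈ Sch n → G ⊆ F → G ∈ Sch n)
    (Z : Submodule ℝ (ℕ → ℝ)) (n : ℕ) (C : ℝ) (hC : 0 < C) (hTl : Tails Z n) (hDm : Dom Z n C)
    (S T : Set (Finset ℕ)) (hTS : ∀ F ∈ T, F ∈ Sch (n + 1))
    (hrel : ∀ F ∈ T, ∀ (z : ℕ → ℝ) (ε : ℝ) (M : ℕ), 0 ≤ ε → (∀ j < M, z j = 0) →
      (∀ G ∈ S, ∑ j ∈ G, |z j| ≤ ε) → (∃ a ∈ F, a < M) → ∑ j ∈ F, |z j| ≤ M * ε)
    (hG : GoodG Z n S) : GoodG Z n T := by
  classical
  intro ε hε N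
  -- choose p
  obtain ⟨p, hp⟩ := exists_nat_ge (3 * C * (3 / ε + 2) + 1)
  have hpC : 0 < 3 * C * (3 / ε + 2) := by positivity
  have hp1 : (1 : ℝ) ≤ p := by linarith
  have hp0 : (0 : ℝ) < p := by linarith
  have hpn : 0 < p := by exact_mod_cast hp0
  have hδ : ∀ M : ℕ, (0 : ℝ) < 1 / (p * (M + 1)) := fun M => by positivity
  choose! zf hzZ hz0 hz1 hz2 hz3 using fun M : ℕ => hG (1 / (p * (M + 1))) (hδ M) M
  have hδ2 : (0 : ℝ) < 1 / p ^ 2 := by positivity
  choose τ hτ using fun M : ℕ => hTl (zf M) (hzZ M) (1 / p ^ 2) hδ2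
  let ν : ℕ → ℕ := fun M => max (M + 1) (τ M)
  let Nn : ℕ → ℕ := fun j => ν^[j] (max p N)
  have hNs : ∀ j, Nn (j + 1) = ν (Nn j) := fun j => Function.iterate_succ_apply' ν j _
  have hN0 : Nn 0 = max p N := rfl
  have hNlt : ∀ j, Nn j < Nn (j + 1) := by
    intro j; rw [hNs]; exact lt_of_lt_of_le (Nat.lt_succ_self _) (le_max_left _ _)
  have hNsm : StrictMono Nn := strictMono_nat_of_lt_succ hNlt
  let z : ℕ → ℕ → ℝ := fun j => zf (Nn j)
  have zZ : ∀ j, z j ∈ Z := fun j => hzZ _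
  have z0 : ∀ j, ∀ a < Nn j, z j a = 0 := fun j => hz0 _
  have z1 : ∀ j, ∀ F ∈ Sch (n + 1), ∑ a ∈ F, |z j a| ≤ 1 := fun j => hz1 _
  have z2 : ∀ j, ∃ F ∈ Sch (n + 1), 1 / 2 ≤ ∑ a ∈ F, |z j a| := fun j => hz2 _
  have z3 : ∀ j, ∀ F ∈ S, ∑ a ∈ F, |z j a| ≤ 1 / (p * (Nn j + 1)) := fun j => hz3 _
  have ztail : ∀ l j, l < j → ∀ F ∈ Sch (n + 1), (∀ a ∈ F, Nn j ≤ a) →
      ∑ a ∈ F, |z l a| ≤ 1 / p ^ 2 := by
    intro l j hlj F hF ha
    refine hτ (Nn l) F hF fun a haF => ?_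
    have h1 : Nn (l + 1) ≤ Nn j := hNsm.monotone hlj
    have h2 : τ (Nn l) ≤ Nn (l + 1) := by rw [hNs]; exact le_max_right _ _
    exact le_trans h2 (le_trans h1 (ha a haF))
  let w : ℕ → ℝ := ∑ j ∈ range p, z j
  have hwa : ∀ a, w a = ∑ j ∈ range p, z j a := fun a => by simp [w]
  have hwZ : w ∈ Z := Z.sum_mem fun j _ => zZ j
  have hw0 : ∀ a < N, w a = 0 := by
    intro a ha
    rw [hwa]
    refine Finset.sum_eq_zero fun j _ => z0 j a ?_
    have : Nn 0 ≤ Nn j := hNsm.monotone (Nat.zero_le j)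
    have h2 : N ≤ Nn 0 := le_max_right _ _
    omega
  have hwF : ∀ F : Finset ℕ, ∑ a ∈ F, |w a| ≤ ∑ j ∈ range p, ∑ a ∈ F, |z j a| := by
    intro F
    rw [Finset.sum_comm]
    refine Finset.sum_le_sum fun a _ => ?_
    rw [hwa]
    exact Finset.abs_sum_le_sum_abs _ _
  have hwB : ∀ F ∈ Sch (n + 1), ∑ a ∈ F, |w a| ≤ p := by
    intro F hF
    refine le_trans (hwF F) ?_
    calc ∑ j ∈ range p, ∑ a ∈ F, |z j a| ≤ ∑ j ∈ range p, (1 : ℝ) :=
          Finset.sum_le_sum fun j _ => z1 j F hF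
      _ = p := by simp
  -- order T
  have hwT : ∀ F ∈ T, ∑ a ∈ F, |w a| ≤ 3 := by
    intro F hF
    refine le_trans (hwF F) ?_
    let Cs : ℕ → Prop := fun j => (∀ a ∈ F, Nn j ≤ a) ∧ ∃ a ∈ F, a < Nn (j + 1)
    have hstep : ∀ j ∈ range p, ∑ a ∈ F, |z j a| ≤ 2 / p + if Cs j then (1 : ℝ) else 0 := by
      intro j _
      have hi2 : (1 : ℝ) / p ^ 2 ≤ 2 / p := by
        rw [div_le_div_iff₀ (by positivity) hp0]
        nlinarith
      have hi1 : (1 : ℝ) / p ≤ 2 / p := by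
        gcongr; norm_num
      by_cases hB : ∃ a ∈ F, a < Nn j
      · have h1 := hrel F hF (z j) (1 / (p * (Nn j + 1))) (Nn j) (hδ _).le (z0 j) (z3 j) hB
        have h2 : (Nn j : ℝ) * (1 / (p * (Nn j + 1))) ≤ 1 / p := by
          rw [mul_one_div, div_le_div_iff₀ (by positivity) hp0]
          nlinarith
        have h3 : (0 : ℝ) ≤ if Cs j then (1 : ℝ) else 0 := by split_ifs <;> norm_num
        linarith
      · push Not at hB
        by_cases hA : ∃ a ∈ F, a < Nn (j + 1)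
        · rw [if_pos ⟨hB, hA⟩]
          have := z1 j F (hTS F hF)
          have h2 : (0 : ℝ) ≤ 2 / p := by positivity
          linarith
        · push Not at hA
          have := ztail j (j + 1) (Nat.lt_succ_self j) F (hTS F hF) hA
          have h3 : (0 : ℝ) ≤ if Cs j then (1 : ℝ) else 0 := by split_ifs <;> norm_num
          linarith
    have hcard : ((range p).filter Cs).card ≤ 1 := by
      rw [Finset.card_le_one]
      intro i hi j hj
      rw [Finset.mem_filter] at hi hj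
      by_contra hne
      rcases lt_or_gt_of_ne hne with h | h
      · obtain ⟨a, haF, ha⟩ := hi.2.2
        have h1 := hj.2.1 a haF
        have h2 : Nn (i + 1) ≤ Nn j := hNsm.monotone h
        omega
      · obtain ⟨a, haF, ha⟩ := hj.2.2
        have h1 := hi.2.1 a haF
        have h2 : Nn (j + 1) ≤ Nn i := hNsm.monotone h
        omega
    calc ∑ j ∈ range p, ∑ a ∈ F, |z j a|
        ≤ ∑ j ∈ range p, (2 / p + if Cs j then (1 : ℝ) else 0) := Finset.sum_le_sum hstep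
      _ = 2 + (((range p).filter Cs).card : ℝ) := by
          rw [Finset.sum_add_distrib, Finset.sum_const, Finset.card_range, nsmul_eq_mul,
            Finset.sum_boole]
          field_simp
      _ ≤ 3 := by
          have : (((range p).filter Cs).card : ℝ) ≤ 1 := by exact_mod_cast hcard
          linarith
  -- lower bound
  have hex : ∀ j, ∃ G ∈ Sch n, 1 / (3 * C) < ∑ a ∈ G, |z j a| := by
    intro j
    by_contra hcon
    push Not at hcon
    obtain ⟨F, hF, h2⟩ := z2 j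
    have := hDm (z j) (zZ j) (1 / (3 * C)) hcon F hF
    have e : C * (1 / (3 * C)) = 1 / 3 := by field_simp
    rw [e] at this
    linarith
  choose G hGn hGs using hex
  let G' : ℕ → Finset ℕ := fun j => (G j).filter fun a => Nn j ≤ a ∧ a < Nn (j + 1)
  have hG'n : ∀ j, G' j ∈ Sch n := fun j => hH n (G j) (G' j) (hGn j) (Finset.filter_subset _ _)
  have hG'm : ∀ j, ∀ a ∈ G' j, Nn j ≤ a ∧ a < Nn (j + 1) := fun j a ha =>
    (Finset.mem_filter.mp ha).2
  have hord : ∀ i j, i < j → ∀ a ∈ G' i, ∀ b ∈ G' j, a < b := by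
    intro i j hij a ha b hb
    have h1 := (hG'm i a ha).2
    have h2 := (hG'm j b hb).1
    have h3 : Nn (i + 1) ≤ Nn j := hNsm.monotone hij
    omega
  have hUm : (univ : Finset (Fin p)).biUnion (fun i => G' i) ∈ Sch (n + 1) := by
    refine hU n p (fun i => G' i) (fun i => hG'n i) (fun i j hij => hord i j hij) ?_
    intro i a ha
    have h1 := (hG'm i a ha).1
    have h2 : Nn 0 ≤ Nn i := hNsm.monotone (Nat.zero_le _)
    have h3 : p ≤ Nn 0 := le_max_left _ _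
    omega
  have hlow : ∀ j, j < p → 1 / (3 * C) - 2 / p ≤ ∑ a ∈ G' j, |w a| := by
    intro j hj
    -- the sum of |z j| over G' j
    have h1 : 1 / (3 * C) - 1 / p ^ 2 ≤ ∑ a ∈ G' j, |z j a| := by
      have hsplit : ∑ a ∈ G j, |z j a| ≤ ∑ a ∈ G' j, |z j a| +
          ∑ a ∈ (G j).filter (fun a => Nn (j + 1) ≤ a), |z j a| := by
        rw [← Finset.sum_filter_add_sum_filter_not (G j) (fun a => Nn j ≤ a ∧ a < Nn (j + 1))]
        refine add_le_add le_rfl ?_
        have : ∑ a ∈ (G j).filter (fun a => ¬ (Nn j ≤ a ∧ a < Nn (j + 1))), |z j a| =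
            ∑ a ∈ ((G j).filter (fun a => ¬ (Nn j ≤ a ∧ a < Nn (j + 1)))).filter
              (fun a => Nn (j + 1) ≤ a), |z j a| := by
          symm
          refine Finset.sum_subset (Finset.filter_subset _ _) ?_
          intro a ha hna
          rw [Finset.mem_filter] at ha
          have h3 : ¬ Nn (j + 1) ≤ a := fun h => hna (Finset.mem_filter.mpr
            ⟨Finset.mem_filter.mpr ha, h⟩)
          have h4 : a < Nn j := by
            by_contra h5
            exact ha.2 ⟨by omega, by omega⟩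
          rw [z0 j a h4, abs_zero]
        rw [this]
        refine Finset.sum_le_sum_of_subset_of_nonneg ?_ (fun a _ _ => abs_nonneg _)
        intro a ha
        rw [Finset.mem_filter, Finset.mem_filter] at ha
        exact Finset.mem_filter.mpr ⟨ha.1.1, ha.2⟩
      have htl : ∑ a ∈ (G j).filter (fun a => Nn (j + 1) ≤ a), |z j a| ≤ 1 / p ^ 2 := by
        refine ztail j (j + 1) (Nat.lt_succ_self j) _ ?_ fun a ha => (Finset.mem_filter.mp ha).2
        exact sch_succ hU n _ (hH n (G j) _ (hGn j) (Finset.filter_subset _ _))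
      have := hGs j
      linarith
    have h2 : ∑ a ∈ G' j, (|z j a| - ∑ l ∈ range j, |z l a|) ≤ ∑ a ∈ G' j, |w a| := by
      refine Finset.sum_le_sum fun a ha => ?_
      have hm := hG'm j a ha
      have hw' : w a = z j a + ∑ l ∈ range j, z l a := by
        rw [hwa]
        have hsub : range (j + 1) ⊆ range p := Finset.range_subset_range.mpr hj
        rw [← Finset.sum_subset hsub, Finset.sum_range_succ, add_comm]
        intro l _ hl
        rw [Finset.mem_range, not_lt] at hl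
        refine z0 l a ?_
        have : Nn (j + 1) ≤ Nn l := hNsm.monotone hl
        omega
      have h5 : |∑ l ∈ range j, z l a| ≤ ∑ l ∈ range j, |z l a| :=
        Finset.abs_sum_le_sum_abs _ _
      have h6 : |z j a| ≤ |w a| + |∑ l ∈ range j, z l a| := by
        have : z j a = w a - ∑ l ∈ range j, z l a := by rw [hw']; ring
        rw [this]
        exact abs_sub _ _
      linarith
    have h3 : ∑ a ∈ G' j, ∑ l ∈ range j, |z l a| ≤ 1 / p := by
      rw [Finset.sum_comm]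
      calc ∑ l ∈ range j, ∑ a ∈ G' j, |z l a| ≤ ∑ l ∈ range j, (1 : ℝ) / p ^ 2 := by
            refine Finset.sum_le_sum fun l hl => ?_
            refine ztail l j (Finset.mem_range.mp hl) _ (sch_succ hU n _ (hG'n j)) ?_
            exact fun a ha => (hG'm j a ha).1
        _ = j * (1 / p ^ 2) := by simp
        _ ≤ p * (1 / p ^ 2) := by
            have : (j : ℝ) ≤ p := by exact_mod_cast hj.le
            gcongr
        _ = 1 / p := by field_simp
    rw [Finset.sum_sub_distrib] at h2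
    have h7 : (1 : ℝ) / p ^ 2 ≤ 1 / p := by
      rw [div_le_div_iff₀ (by positivity) hp0]
      nlinarith
    have h8 : (2 : ℝ) / p = 1 / p + 1 / p := by ring
    linarith
  have hUL : 3 / ε ≤ ∑ a ∈ (univ : Finset (Fin p)).biUnion (fun i => G' i), |w a| := by
    rw [Finset.sum_biUnion]
    · have h1 : ∑ i : Fin p, (1 / (3 * C) - 2 / (p : ℝ)) ≤ ∑ i : Fin p, ∑ a ∈ G' i, |w a| :=
        Finset.sum_le_sum fun i _ => hlow i i.2
      refine le_trans ?_ h1
      rw [Finset.sum_const, Finset.card_univ, Fintype.card_fin, nsmul_eq_mul]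
      have e : (p : ℝ) * (1 / (3 * C) - 2 / p) = p / (3 * C) - 2 := by
        field_simp
      rw [e]
      have h2 : 3 / ε + 2 ≤ p / (3 * C) := by
        rw [le_div_iff₀ (by positivity)]
        linarith
      linarith
    · intro i _ j _ hij
      rw [Function.onFun, Finset.disjoint_left]
      intro a ha hb
      rcases lt_or_gt_of_ne (fun h => hij (Fin.ext h) : (i : ℕ) ≠ j) with h | h
      · exact absurd (hord i j h a ha a hb) (lt_irrefl _)
      · exact absurd (hord j i h a hb a ha) (lt_irrefl _)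
  have h3ε : 0 < 3 / ε := by positivity
  obtain ⟨v, hvZ, hv0, hv1, hv2, hv3⟩ := normalise Z n w hwZ N hw0 p hwB (3 / ε) h3ε _ hUm hUL T 3
    (by norm_num) hwT
  refine ⟨v, hvZ, hv0, hv1, hv2, fun F hF => ?_⟩
  have := hv3 F hF
  have e : 3 / (3 / ε) = ε := by field_simp
  rwa [e] at this

end Pool.Agent.X10.SSB
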